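import Mathlib

set_option autoImplicit false

open Complex MeasureTheory Filter Topology Asymptotics

namespace Pool.Agent.T2h95.CMO

/-- the summatory function -/
noncomputable def Sf (f : ℕ → ℂ) (t : ℝ) : ℂ := ∑ k ∈ Finset.Icc 1 ⌊t⌋₊, f k

/-- `∫_1^∞ S(t) t^{-s} dt` -/
noncomputable def HH (f : ℕ → ℂ) (s : ℂ) : ℂ :=
  ∫ t in Set.Ioi (1 : ℝ), Sf f t * (t : ℂ) ^ (-s)

/-- the standing hypotheses: `S(t) = o(t^{-1/2})`, and a trivial bound -/
structure Small (f : ℕ → ℂ) : Prop where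
  triv : ∀ t : ℝ, 1 ≤ t → ‖Sf f t‖ ≤ t
  small : ∀ ε : ℝ, 0 < ε → ∃ T : ℝ, 1 ≤ T ∧ ∀ t : ℝ, T ≤ t → ‖Sf f t‖ ≤ ε * t ^ (-(1 / 2) : ℝ)

lemma measurable_Sf (f : ℕ → ℂ) : Measurable (Sf f) := by
  have h : Measurable (fun n : ℕ => ∑ k ∈ Finset.Icc 1 n, f k) := measurable_from_top
  exact h.comp Nat.measurable_floor

lemma Small.bound {f : ℕ → ℂ} (hf : Small f) :
    ∃ C : ℝ, 0 ≤ C ∧ ∀ t : ℝ, 1 ≤ t → ‖Sf f t‖ ≤ C * t ^ (-(1 / 2) : ℝ) := by
  obtain ⟨T, hT, h⟩ := hf.small 1 one_pos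
  have hT0 : 0 < T := by linarith
  refine ⟨T * T ^ ((1 : ℝ) / 2) + 1, by positivity, fun t ht => ?_⟩
  have ht0 : 0 < t := by linarith
  rcases le_total T t with h1 | h1
  · refine (h t h1).trans ?_
    have : 0 ≤ t ^ (-(1 / 2) : ℝ) := by positivity
    have h2 : 0 ≤ T * T ^ ((1 : ℝ) / 2) := by positivity
    nlinarith
  · refine (hf.triv t ht).trans ?_
    have h3 : (1 : ℝ) ≤ T ^ ((1 : ℝ) / 2) * t ^ (-(1 / 2) : ℝ) := by
      rw [Real.rpow_neg ht0.le, ← div_eq_mul_inv, one_le_div (by positivity)]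
      exact Real.rpow_le_rpow ht0.le h1 (by norm_num)
    have h4 : 0 ≤ t ^ (-(1 / 2) : ℝ) := by positivity
    nlinarith

lemma HH_eq_mellin (f : ℕ → ℂ) (s : ℂ) :
    HH f s = mellin (Set.indicator (Set.Ioi 1) (Sf f)) (1 - s) := by
  unfold HH mellin
  have h1 : ∀ t : ℝ, (t : ℂ) ^ (1 - s - 1) • Set.indicator (Set.Ioi 1) (Sf f) t =
      Set.indicator (Set.Ioi 1) (fun t => Sf f t * (t : ℂ) ^ (-s)) t := by
    intro t
    by_cases ht : t ∈ Set.Ioi (1 : ℝ)
    · rw [Set.indicator_of_mem ht, Set.indicator_of_mem ht, smul_eq_mul, mul_comm]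
      congr 2; ring
    · rw [Set.indicator_of_notMem ht, Set.indicator_of_notMem ht, smul_zero]
  simp_rw [h1]
  rw [setIntegral_indicator measurableSet_Ioi]
  congr 2
  ext t
  simp only [Set.mem_Ioi, Set.mem_inter_iff]
  constructor
  · intro h; exact ⟨by linarith, h⟩
  · intro h; exact h.2

theorem HH_differentiableAt {f : ℕ → ℂ} (hf : Small f) {s : ℂ} (hs : 1 / 2 < s.re) :
    DifferentiableAt ℂ (HH f) s := by
  obtain ⟨C, hC, hb⟩ := hf.bound
  have h1 : HH f = (mellin (Set.indicator (Set.Ioi 1) (Sf f))) ∘ (fun s => 1 - s) := by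
    ext z; exact HH_eq_mellin f z
  rw [h1]
  refine DifferentiableAt.comp s ?_ ((differentiableAt_const _).sub differentiableAt_id)
  refine mellin_differentiableAt_of_isBigO_rpow (a := 1 / 2) (b := (1 - s).re - 1) ?_ ?_ ?_ ?_ ?_
  · refine LocallyIntegrable.locallyIntegrableOn ?_ _
    refine (locallyIntegrable_const (C : ℝ)).mono
      (((measurable_Sf f).indicator measurableSet_Ioi).aestronglyMeasurable) ?_
    refine Eventually.of_forall fun t => ?_
    rw [Real.norm_eq_abs, abs_of_nonneg hC]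
    by_cases ht : t ∈ Set.Ioi (1 : ℝ)
    · rw [Set.indicator_of_mem ht]
      have ht' : (1 : ℝ) < t := ht
      refine (hb t ht'.le).trans ?_
      have : t ^ (-(1 / 2) : ℝ) ≤ 1 := by
        refine Real.rpow_le_one_of_one_le_of_nonpos ht'.le (by norm_num)
      nlinarith
    · rw [Set.indicator_of_notMem ht, norm_zero]; exact hC
  · refine IsBigO.of_bound C ?_
    filter_upwards [eventually_gt_atTop (1 : ℝ)] with t ht
    rw [Set.indicator_of_mem (show t ∈ Set.Ioi (1 : ℝ) from ht), Real.norm_eq_abs,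
      abs_of_nonneg (by positivity)]
    exact hb t ht.le
  · simp only [sub_re, one_re]; linarith
  · refine IsBigO.of_bound 1 ?_
    have : ∀ᶠ t in 𝓝[>] (0 : ℝ), t < 1 := by
      refine mem_nhdsWithin_of_mem_nhds (Iio_mem_nhds one_pos)
    filter_upwards [this] with t ht
    rw [Set.indicator_of_notMem (by simpa using ht.le), norm_zero]
    positivity
  · linarith

theorem LSeries_eq_HH {f : ℕ → ℂ} (hf : Small f) {s : ℂ} (hs : 1 < s.re)
    (hS : LSeriesSummable f (s - 1)) :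
    LSeries (fun n => (n : ℂ) * f n) s = (s - 1) * HH f s := by
  obtain ⟨C, hC, hb⟩ := hf.bound
  have hO : (fun n : ℕ => ∑ k ∈ Finset.Icc 1 n, f k) =O[atTop] fun n => (n : ℝ) ^ (0 : ℝ) := by
    refine IsBigO.of_bound C ?_
    filter_upwards [eventually_ge_atTop 1] with n hn
    have h1 := hb n (by exact_mod_cast hn)
    have h2 : Sf f (n : ℝ) = ∑ k ∈ Finset.Icc 1 n, f k := by rw [Sf, Nat.floor_natCast]
    rw [h2] at h1
    refine h1.trans ?_
    have : (n : ℝ) ^ (-(1 / 2) : ℝ) ≤ 1 :=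
      Real.rpow_le_one_of_one_le_of_nonpos (by exact_mod_cast hn) (by norm_num)
    simp only [Real.rpow_zero, norm_one, mul_one]
    nlinarith
  have h1 := LSeries_eq_mul_integral f (r := 0) le_rfl (s := s - 1) (by simpa using hs) hS hO
  have h2 : LSeries f (s - 1) = LSeries (fun n => (n : ℂ) * f n) s := by
    unfold LSeries
    refine tsum_congr fun n => ?_
    rw [LSeries.term_def, LSeries.term_def]
    split_ifs with h
    · rfl
    · have hn : (n : ℂ) ≠ 0 := by exact_mod_cast h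
      rw [Complex.cpow_sub _ _ hn, Complex.cpow_one, div_div_eq_mul_div, mul_comm]
  rw [← h2, h1, HH]
  congr 2
  ext t
  rw [Sf]
  congr 2
  ring

theorem HH_small {f : ℕ → ℂ} (hf : Small f) {ε : ℝ} (hε : 0 < ε) :
    ∃ K : ℝ, ∀ σ : ℝ, 1 / 2 < σ → ‖HH f σ‖ ≤ ε / (σ - 1 / 2) + K := by
  obtain ⟨T, hT, h⟩ := hf.small ε hε
  refine ⟨T ^ 3, fun σ hσ => ?_⟩
  have hpt : ∀ t ∈ Set.Ioi (1 : ℝ), ‖Sf f t * (t : ℂ) ^ (-(σ : ℂ))‖ ≤
      ε * t ^ (-(1 / 2) - σ : ℝ) + T ^ 3 * t ^ (-2 : ℝ) := by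
    intro t ht
    have ht1 : (1 : ℝ) < t := ht
    have ht0 : 0 < t := by linarith
    rw [norm_mul, Complex.norm_cpow_eq_rpow_re_of_pos ht0]
    simp only [neg_re, ofReal_re]
    rcases le_total T t with h1 | h1
    · have h2 : ‖Sf f t‖ * t ^ (-σ) ≤ ε * t ^ (-(1 / 2) - σ : ℝ) := by
        rw [sub_eq_add_neg (-(1 / 2) : ℝ), Real.rpow_add ht0, ← mul_assoc]
        exact mul_le_mul_of_nonneg_right (h t h1) (by positivity)
      have h3 : 0 ≤ T ^ 3 * t ^ (-2 : ℝ) := by positivity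
      linarith
    · have h2 : ‖Sf f t‖ * t ^ (-σ) ≤ T * 1 := by
        refine mul_le_mul ((hf.triv t ht1.le).trans h1) ?_ (by positivity) (by linarith)
        exact Real.rpow_le_one_of_one_le_of_nonpos ht1.le (by linarith)
      have h3 : T * 1 ≤ T ^ 3 * t ^ (-2 : ℝ) := by
        rw [Real.rpow_neg ht0.le, ← div_eq_mul_inv, le_div_iff₀ (by positivity)]
        have : t ^ (2 : ℝ) ≤ T ^ 2 := by
          rw [show (2 : ℝ) = ((2 : ℕ) : ℝ) by norm_num, Real.rpow_natCast]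
          exact pow_le_pow_left₀ ht0.le h1 2
        nlinarith
      have h4 : 0 ≤ ε * t ^ (-(1 / 2) - σ : ℝ) := by positivity
      linarith
  have hi1 : IntegrableOn (fun t : ℝ => t ^ (-(1 / 2) - σ : ℝ)) (Set.Ioi 1) :=
    integrableOn_Ioi_rpow_of_lt (by linarith) one_pos
  have hi2 : IntegrableOn (fun t : ℝ => t ^ (-2 : ℝ)) (Set.Ioi 1) :=
    integrableOn_Ioi_rpow_of_lt (by norm_num) one_pos
  have h1 : ‖HH f σ‖ ≤ ∫ t in Set.Ioi (1 : ℝ),
      (ε * t ^ (-(1 / 2) - σ : ℝ) + T ^ 3 * t ^ (-2 : ℝ)) := by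
    refine norm_integral_le_of_norm_le ((hi1.const_mul ε).add (hi2.const_mul (T ^ 3))) ?_
    exact (ae_restrict_mem measurableSet_Ioi).mono hpt
  refine h1.trans (le_of_eq ?_)
  rw [integral_add (hi1.const_mul ε) (hi2.const_mul (T ^ 3)), integral_const_mul,
    integral_const_mul, integral_Ioi_rpow_of_lt (by linarith) one_pos,
    integral_Ioi_rpow_of_lt (by norm_num) one_pos]
  rw [Real.one_rpow, Real.one_rpow]
  have h5 : -(1 / 2) - σ + 1 = -(σ - 1 / 2) := by ring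
  rw [h5, neg_div_neg_eq]
  norm_num
  ring

end Pool.Agent.T2h95.CMO
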