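import Mathlib

set_option autoImplicit false

open ArithmeticFunction Complex
open scoped ComplexOrder

namespace Pool.Agent.T2h95.CMO

/-- completely multiplicative arithmetic functions -/
structure CM (h : ArithmeticFunction ℂ) : Prop where
  one : h 1 = 1
  mul : ∀ m n : ℕ, h (m * n) = h m * h n

/-- pointwise multiplication by `log n` -/
noncomputable def Dlog (u : ArithmeticFunction ℂ) : ArithmeticFunction ℂ :=
  ⟨fun n => u n * (Real.log n : ℂ), by simp⟩

/-- pointwise multiplication by `Λ(n)` -/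
noncomputable def Lam (u : ArithmeticFunction ℂ) : ArithmeticFunction ℂ :=
  ⟨fun n => u n * (vonMangoldt n : ℂ), by simp⟩

lemma Dlog_apply (u : ArithmeticFunction ℂ) (n : ℕ) : Dlog u n = u n * (Real.log n : ℂ) := rfl
lemma Lam_apply (u : ArithmeticFunction ℂ) (n : ℕ) : Lam u n = u n * (vonMangoldt n : ℂ) := rfl

lemma Dlog_mul (u v : ArithmeticFunction ℂ) : Dlog (u * v) = Dlog u * v + u * Dlog v := by
  ext n
  rw [ArithmeticFunction.add_apply, Dlog_apply, ArithmeticFunction.mul_apply,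
    ArithmeticFunction.mul_apply, ArithmeticFunction.mul_apply, Finset.sum_mul,
    ← Finset.sum_add_distrib]
  refine Finset.sum_congr rfl fun x hx => ?_
  obtain ⟨hx, hn⟩ := Nat.mem_divisorsAntidiagonal.mp hx
  have h1 : x.1 ≠ 0 := by rintro h; apply hn; rw [← hx, h, zero_mul]
  have h2 : x.2 ≠ 0 := by rintro h; apply hn; rw [← hx, h, mul_zero]
  rw [Dlog_apply, Dlog_apply, ← hx, Nat.cast_mul, Real.log_mul (by exact_mod_cast h1)
    (by exact_mod_cast h2)]
  push_cast
  ring

lemma Dlog_cm {h : ArithmeticFunction ℂ} (hh : CM h) : Dlog h = Lam h * h := by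
  ext n
  rw [Dlog_apply, ArithmeticFunction.mul_apply]
  have : ∀ x ∈ n.divisorsAntidiagonal, Lam h x.1 * h x.2 = h n * ((vonMangoldt x.1 : ℝ) : ℂ) := by
    intro x hx
    obtain ⟨hx, hn⟩ := Nat.mem_divisorsAntidiagonal.mp hx
    rw [Lam_apply, ← hx, hh.mul]; ring
  rw [Finset.sum_congr rfl this, ← Finset.mul_sum]
  congr 1
  rw [← ArithmeticFunction.vonMangoldt_sum, Complex.ofReal_sum]
  exact (Nat.sum_divisorsAntidiagonal (f := fun i _ => ((vonMangoldt i : ℝ) : ℂ))).symm

/-- strong-induction positivity -/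
lemma nonneg_of_Dlog {c w : ArithmeticFunction ℂ} (hc1 : c 1 = 1) (hw1 : w 1 = 0)
    (hw : ∀ n, 0 ≤ w n) (hcw : Dlog c = w * c) (n : ℕ) : 0 ≤ c n := by
  induction n using Nat.strong_induction_on with
  | _ n ih =>
    rcases Nat.lt_or_ge n 2 with hn | hn
    · interval_cases n
      · simp
      · rw [hc1]; exact zero_le_one
    · have hlog : 0 < Real.log n := Real.log_pos (by exact_mod_cast hn)
      have h1 : c n * (Real.log n : ℂ) = ∑ x ∈ n.divisorsAntidiagonal, w x.1 * c x.2 := by
        rw [← Dlog_apply, hcw, ArithmeticFunction.mul_apply]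
      have h2 : 0 ≤ c n * (Real.log n : ℂ) := by
        rw [h1]
        refine Finset.sum_nonneg fun x hx => ?_
        obtain ⟨hx, hn0⟩ := Nat.mem_divisorsAntidiagonal.mp hx
        by_cases h : x.1 = 1
        · rw [h, hw1, zero_mul]
        · have h0 : x.1 ≠ 0 := by rintro h; apply hn0; rw [← hx, h, zero_mul]
          have hx2 : x.2 ≠ 0 := by rintro h; apply hn0; rw [← hx, h, mul_zero]
          have hlt : x.2 < n := by
            rw [← hx]
            have : 2 ≤ x.1 := by omega
            nlinarith [Nat.pos_of_ne_zero hx2]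
          exact mul_nonneg (hw _) (ih _ hlt)
      have h3 : c n = (c n * (Real.log n : ℂ)) * ((Real.log n)⁻¹ : ℝ) := by
        rw [Complex.ofReal_inv, mul_assoc, mul_inv_cancel₀, mul_one]
        exact_mod_cast hlog.ne'
      rw [h3]
      exact mul_nonneg h2 (by exact_mod_cast (inv_pos.mpr hlog).le)

/-- complex conjugate of an arithmetic function -/
noncomputable def cj (g : ArithmeticFunction ℂ) : ArithmeticFunction ℂ :=
  ⟨fun n => (starRingEnd ℂ) (g n), by simp⟩

lemma cj_apply (g : ArithmeticFunction ℂ) (n : ℕ) : cj g n = (starRingEnd ℂ) (g n) := rfl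

lemma CM.cj {g : ArithmeticFunction ℂ} (hg : CM g) : CM (cj g) :=
  ⟨by rw [cj_apply, hg.one, map_one], fun m n => by
    rw [cj_apply, cj_apply, cj_apply, hg.mul, map_mul]⟩

/-- the four-fold convolution -/
noncomputable def four (u g : ArithmeticFunction ℂ) : ArithmeticFunction ℂ :=
  u * u * (g * cj g)

theorem four_nonneg {u g : ArithmeticFunction ℂ} (hu : CM u) (hg : CM g)
    (hgu : ∀ n, ((‖g n‖ : ℝ) : ℂ) ≤ u n) (n : ℕ) : 0 ≤ four u g n := by
  have key : Dlog (four u g) =
      (Lam u + Lam u + (Lam g + Lam (cj g))) * four u g := by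
    unfold four
    rw [Dlog_mul, Dlog_mul, Dlog_mul, Dlog_cm hu, Dlog_cm hg, Dlog_cm hg.cj]
    ring
  refine nonneg_of_Dlog (w := Lam u + Lam u + (Lam g + Lam (cj g))) ?_ ?_ ?_ key n
  · simp [four, hu.one, hg.one, hg.cj.one]
  · simp [Lam_apply]
  · intro n
    simp only [ArithmeticFunction.add_apply, Lam_apply, cj_apply]
    have h1 : g n + (starRingEnd ℂ) (g n) = ((2 * (g n).re : ℝ) : ℂ) := by
      rw [Complex.add_conj]
    have h2 : u n * (vonMangoldt n : ℂ) + u n * (vonMangoldt n : ℂ) + (g n * (vonMangoldt n : ℂ) + (starRingEnd ℂ) (g n) * (vonMangoldt n : ℂ))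
        = (u n + u n + ((2 * (g n).re : ℝ) : ℂ)) * (vonMangoldt n : ℂ) := by
      rw [← h1]; ring
    rw [h2]
    refine mul_nonneg ?_ (by exact_mod_cast ArithmeticFunction.vonMangoldt_nonneg)
    have h3 := hgu n
    have h4 : ((-(g n).re : ℝ) : ℂ) ≤ u n := by
      refine le_trans ?_ h3
      exact_mod_cast le_trans (neg_le_abs _) (Complex.abs_re_le_norm (g n))
    have h5 : 0 ≤ u n - ((-(g n).re : ℝ) : ℂ) := sub_nonneg.mpr h4
    have h6 : u n + u n + ((2 * (g n).re : ℝ) : ℂ) =
      (u n - ((-(g n).re : ℝ) : ℂ)) + (u n - ((-(g n).re : ℝ) : ℂ)) := by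
      push_cast; ring
    rw [h6]
    exact add_nonneg h5 h5

end Pool.Agent.T2h95.CMO
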