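import Pool.Agent.T2h95.CMO.Strip
import Pool.Agent.T2h95.CMO.Analytic

set_option autoImplicit false

open ArithmeticFunction Complex MeasureTheory Filter Topology
open scoped ComplexOrder

namespace Pool.Agent.T2h95.CMO

/-- `(s-1) ζ(s)`, made entire -/
noncomputable def Zt : ℂ → ℂ := Function.update (fun s => (s - 1) * riemannZeta s) 1 1

lemma Zt_differentiable : Differentiable ℂ Zt := by
  unfold Zt
  rw [← differentiableOn_univ,
    ← differentiableOn_compl_singleton_and_continuousAt_iff (c := 1) Filter.univ_mem]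
  refine ⟨DifferentiableOn.congr (f := fun s ↦ (s - 1) * riemannZeta s) ?_ ?_, ?_⟩
  · intro s hs
    have hs1 : s ≠ 1 := (Set.mem_sdiff_singleton.mp hs).2
    exact ((differentiableAt_id.sub_const 1).mul
      (differentiableAt_riemannZeta hs1)).differentiableWithinAt
  · intro s hs
    exact Function.update_of_ne (Set.mem_sdiff_singleton.mp hs).2 ..
  · refine continuousWithinAt_compl_self.mp ?_
    simpa using riemannZeta_residue_one

lemma Zt_eq {s : ℂ} (hs : 1 < s.re) : Zt s = (s - 1) * riemannZeta s := by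
  have : s ≠ 1 := by rintro rfl; simp at hs
  exact Function.update_of_ne this ..

/-- the constant function `1` -/
noncomputable def uo : ArithmeticFunction ℂ := ⟨fun n => if n = 0 then 0 else 1, by simp⟩

lemma uo_apply (n : ℕ) : uo n = if n = 0 then 0 else 1 := rfl

lemma CM_uo : CM uo := by
  refine ⟨by simp [uo_apply], fun m n => ?_⟩
  simp only [uo_apply, mul_eq_zero]
  by_cases h1 : m = 0
  · simp [h1]
  · by_cases h2 : n = 0
    · simp [h2]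
    · simp [h1, h2]

lemma uo_summable {s : ℂ} (hs : 1 < s.re) : LSeriesSummable uo s := by
  have h := LSeriesSummable_one_iff.mpr hs
  refine (LSeriesSummable_congr s fun {n} hn => ?_).mpr h
  simp [uo_apply, hn]

lemma LSeries_uo {s : ℂ} (hs : 1 < s.re) : LSeries uo s = riemannZeta s := by
  rw [← LSeries_one_eq_riemannZeta hs]
  refine LSeries_congr (fun {n} hn => ?_) s
  simp [uo_apply, hn]

/-- `n f(n)` as an arithmetic function -/
noncomputable def gf (f : ℕ → ℂ) : ArithmeticFunction ℂ := ⟨fun n => (n : ℂ) * f n, by simp⟩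

lemma gf_apply (f : ℕ → ℂ) (n : ℕ) : gf f n = (n : ℂ) * f n := rfl

lemma cj_gf (f : ℕ → ℂ) : cj (gf f) = gf (fun n => (starRingEnd ℂ) (f n)) := by
  ext n
  rw [cj_apply, gf_apply, gf_apply, map_mul, map_natCast]

lemma Small.conj {f : ℕ → ℂ} (hf : Small f) : Small (fun n => (starRingEnd ℂ) (f n)) := by
  have h : ∀ t, ‖Sf (fun n => (starRingEnd ℂ) (f n)) t‖ = ‖Sf f t‖ := by
    intro t
    rw [Sf, Sf, ← map_sum]
    exact RCLike.norm_conj _
  refine ⟨fun t ht => ?_, fun ε hε => ?_⟩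
  · rw [h]; exact hf.triv t ht
  · obtain ⟨T, hT, hb⟩ := hf.small ε hε
    exact ⟨T, hT, fun t ht => by rw [h]; exact hb t ht⟩

lemma gf_summable {f : ℕ → ℂ} (hf : ∀ n, ‖gf f n‖ ≤ 1) {s : ℂ} (hs : 1 < s.re) :
    LSeriesSummable (gf f) s :=
  LSeriesSummable_of_bounded_of_one_lt_re (m := 1) (fun n _ => hf n) hs

lemma gf_summable' {f : ℕ → ℂ} (hf : ∀ n, ‖gf f n‖ ≤ 1) {s : ℂ} (hs : 1 < s.re) :
    LSeriesSummable f (s - 1) := by
  have h := gf_summable hf hs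
  unfold LSeriesSummable at h ⊢
  refine h.congr fun n => ?_
  rw [LSeries.term_def, LSeries.term_def]
  split_ifs with h0
  · rfl
  · have hn : (n : ℂ) ≠ 0 := by exact_mod_cast h0
    rw [Complex.cpow_sub _ _ hn, Complex.cpow_one, div_div_eq_mul_div, mul_comm, gf_apply]

lemma LSeries_gf {f : ℕ → ℂ} (hf : ∀ n, ‖gf f n‖ ≤ 1) (hS : Small f) {s : ℂ} (hs : 1 < s.re) :
    LSeries (gf f) s = (s - 1) * HH f s := by
  rw [← LSeries_eq_HH hS hs (gf_summable' hf hs)]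
  rfl

lemma factor_bound {p : ℕ} (hp : p.Prime) {w : ℂ} (hw : ‖w‖ ≤ 1) {σ : ℝ} (hσ : 0 < σ) :
    ‖1 - (p : ℂ) ^ (-(σ : ℂ))‖ * ‖1 - w * (p : ℂ) ^ (-(σ : ℂ))‖ ≤
      ‖1 - (p : ℂ) ^ (-((2 * σ : ℝ) : ℂ))‖ := by
  have hp0 : (0 : ℝ) < p := by exact_mod_cast hp.pos
  have hp1 : (1 : ℝ) < p := by exact_mod_cast hp.one_lt
  set x : ℝ := (p : ℝ) ^ (-σ) with hx
  have hx0 : 0 < x := Real.rpow_pos_of_pos hp0 _
  have hx1 : x < 1 := Real.rpow_lt_one_of_one_lt_of_neg hp1 (by linarith)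
  have h1 : (p : ℂ) ^ (-(σ : ℂ)) = (x : ℂ) := by
    rw [hx, Complex.ofReal_cpow hp0.le]; push_cast; rfl
  have h2 : (p : ℂ) ^ (-((2 * σ : ℝ) : ℂ)) = ((x ^ 2 : ℝ) : ℂ) := by
    have : x ^ 2 = (p : ℝ) ^ (-(2 * σ)) := by
      rw [hx, ← Real.rpow_natCast, ← Real.rpow_mul hp0.le]
      congr 1; push_cast; ring
    rw [this, Complex.ofReal_cpow hp0.le]; push_cast; rfl
  rw [h1, h2]
  have h3 : ‖(1 : ℂ) - (x : ℂ)‖ = 1 - x := by
    rw [show (1 : ℂ) - (x : ℂ) = ((1 - x : ℝ) : ℂ) by push_cast; ring, Complex.norm_real,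
      Real.norm_eq_abs, abs_of_pos (by linarith)]
  have h4 : ‖(1 : ℂ) - ((x ^ 2 : ℝ) : ℂ)‖ = 1 - x ^ 2 := by
    rw [show (1 : ℂ) - ((x ^ 2 : ℝ) : ℂ) = ((1 - x ^ 2 : ℝ) : ℂ) by push_cast; ring,
      Complex.norm_real, Real.norm_eq_abs, abs_of_pos (by nlinarith)]
  have h5 : ‖1 - w * (x : ℂ)‖ ≤ 1 + x := by
    refine (norm_sub_le _ _).trans ?_
    rw [norm_one, norm_mul, Complex.norm_real, Real.norm_eq_abs, abs_of_pos hx0]
    nlinarith
  rw [h3, h4]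
  have : (1 - x) * ‖1 - w * (x : ℂ)‖ ≤ (1 - x) * (1 + x) :=
    mul_le_mul_of_nonneg_left h5 (by linarith)
  nlinarith

/-- the key inequality `ζ(2σ)² ≤ |(σ-1)ζ(σ)|² |H(σ)| |H̄(σ)|` for `σ > 1/2` -/
theorem key_ineq {f : ℕ → ℂ} (hcm : CM (gf f)) (hf : ∀ n, ‖gf f n‖ ≤ 1) (hS : Small f)
    {σ : ℝ} (hσ : 1 / 2 < σ) :
    ‖riemannZeta ((2 * σ : ℝ) : ℂ)‖ ^ 2 ≤ ‖Zt σ‖ ^ 2 *
      (‖HH f σ‖ * ‖HH (fun n => (starRingEnd ℂ) (f n)) σ‖) := by
  classical
  set fb : ℕ → ℂ := fun n => (starRingEnd ℂ) (f n) with hfb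
  have hcj : cj (gf f) = gf fb := cj_gf f
  have hfbn : ∀ n, ‖gf fb n‖ ≤ 1 := by
    intro n
    rw [← hcj, cj_apply]
    exact (RCLike.norm_conj _).le.trans (hf n)
  have hSb : Small fb := hS.conj
  have hdom : ∀ n, ((‖gf f n‖ : ℝ) : ℂ) ≤ uo n := by
    intro n
    rw [uo_apply]
    split_ifs with h
    · rw [h]; simp
    · exact_mod_cast hf n
  have hN : ∀ N : ℕ, 1 ≤ ‖∏ p ∈ N.primesBelow, (1 - (p : ℂ) ^ (-((2 * σ : ℝ) : ℂ)))‖ ^ 2 *
      (‖Zt σ‖ ^ 2 * (‖HH f σ‖ * ‖HH fb σ‖)) := by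
    intro N
    set E : ℂ → ℂ := fun s =>
      ((∏ p ∈ N.primesBelow, (1 - uo p * (p : ℂ) ^ (-s))) ^ 2 *
        ((∏ p ∈ N.primesBelow, (1 - gf f p * (p : ℂ) ^ (-s))) *
          (∏ p ∈ N.primesBelow, (1 - gf fb p * (p : ℂ) ^ (-s))))) *
        (Zt s ^ 2 * (HH f s * HH fb s)) with hE
    have hprodd : ∀ w : ℕ → ℂ, Differentiable ℂ
        (fun s : ℂ => ∏ p ∈ N.primesBelow, (1 - w p * (p : ℂ) ^ (-s))) := by
      intro w
      refine Differentiable.fun_finsetProd fun p hp => ?_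
      have hp0 : (p : ℂ) ≠ 0 := by
        exact_mod_cast (Nat.prime_of_mem_primesBelow hp).ne_zero
      refine (differentiable_const _).sub ((differentiable_const _).mul ?_)
      intro s
      exact (differentiableAt_id.neg).const_cpow (Or.inl hp0)
    have hEd : DifferentiableOn ℂ E {s : ℂ | 1 / 2 < s.re} := by
      intro s hs
      refine DifferentiableAt.differentiableWithinAt ?_
      refine DifferentiableAt.mul (DifferentiableAt.mul ((hprodd _ s).pow 2)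
        ((hprodd _ s).mul (hprodd _ s))) (DifferentiableAt.mul ((Zt_differentiable s).pow 2)
        (DifferentiableAt.mul (HH_differentiableAt hS hs) (HH_differentiableAt hSb hs)))
    have hEa : ∀ s : ℂ, 1 < s.re → LSeriesSummable (four (rough N uo) (rough N (gf f))) s ∧
        E s = LSeries (four (rough N uo) (rough N (gf f))) s := by
      intro s hs
      have h1 := LSeries_rough CM_uo N (uo_summable hs)
      have h2 := LSeries_rough hcm N (gf_summable hf hs)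
      have h3 := LSeries_rough (hcm.cj) N (s := s) (by rw [hcj]; exact gf_summable hfbn hs)
      have h4 := LSeries_four h1.1 h2.1 (by rw [cj_rough]; exact h3.1)
      refine ⟨h4.1, ?_⟩
      rw [h4.2, cj_rough, h1.2, h2.2, h3.2, hcj, LSeries_uo hs, LSeries_gf hf hS hs,
        LSeries_gf hfbn hSb hs]
      simp only [hE, Zt_eq hs]
      ring
    have hpos := landau_one (a := four (rough N uo) (rough N (gf f)))
      (four_nonneg (CM_uo.rough N) (hcm.rough N) (rough_le hdom N))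
      (by simp [four, (CM_uo.rough N).one, (hcm.rough N).one, (hcm.rough N).cj.one])
      (fun s hs => (hEa s hs).1) hEd (fun s hs => (hEa s hs).2) hσ
    have hnorm : 1 ≤ ‖E σ‖ := by
      have h1 : (1 : ℝ) ≤ (E σ).re := by
        have := (Complex.le_def.mp hpos).1
        simpa using this
      exact h1.trans ((le_abs_self _).trans (Complex.abs_re_le_norm _))
    refine hnorm.trans ?_
    simp only [hE]
    rw [norm_mul]
    have hX : ‖Zt σ ^ 2 * (HH f σ * HH fb σ)‖ = ‖Zt σ‖ ^ 2 * (‖HH f σ‖ * ‖HH fb σ‖) := by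
      rw [norm_mul, norm_mul, norm_pow]
    rw [hX]
    refine mul_le_mul_of_nonneg_right ?_ (by positivity)
    rw [norm_mul, norm_pow, norm_mul, norm_prod, norm_prod, norm_prod, norm_prod]
    rw [← Finset.prod_pow, ← Finset.prod_pow, ← Finset.prod_mul_distrib, ← Finset.prod_mul_distrib]
    refine Finset.prod_le_prod (fun p hp => by positivity) fun p hp => ?_
    have hpp := Nat.prime_of_mem_primesBelow hp
    have hu : uo p = 1 := by rw [uo_apply, if_neg hpp.ne_zero]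
    rw [hu, one_mul]
    have hσ0 : 0 < σ := by linarith
    have b1 := factor_bound hpp (hf p) hσ0
    have b2 := factor_bound hpp (hfbn p) hσ0
    calc ‖1 - (p : ℂ) ^ (-(σ : ℂ))‖ ^ 2 *
          (‖1 - gf f p * (p : ℂ) ^ (-(σ : ℂ))‖ * ‖1 - gf fb p * (p : ℂ) ^ (-(σ : ℂ))‖)
        = (‖1 - (p : ℂ) ^ (-(σ : ℂ))‖ * ‖1 - gf f p * (p : ℂ) ^ (-(σ : ℂ))‖) *
          (‖1 - (p : ℂ) ^ (-(σ : ℂ))‖ * ‖1 - gf fb p * (p : ℂ) ^ (-(σ : ℂ))‖) := by ring
      _ ≤ ‖1 - (p : ℂ) ^ (-((2 * σ : ℝ) : ℂ))‖ * ‖1 - (p : ℂ) ^ (-((2 * σ : ℝ) : ℂ))‖ :=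
          mul_le_mul b1 b2 (by positivity) (by positivity)
      _ = ‖1 - (p : ℂ) ^ (-((2 * σ : ℝ) : ℂ))‖ ^ 2 := by ring
  set X : ℝ := ‖Zt σ‖ ^ 2 * (‖HH f σ‖ * ‖HH fb σ‖) with hX
  have hlim : Tendsto (fun n : ℕ => ‖∏ p ∈ n.primesBelow,
      (1 - (p : ℂ) ^ (-((2 * σ : ℝ) : ℂ)))⁻¹‖ ^ 2) atTop
      (𝓝 (‖riemannZeta ((2 * σ : ℝ) : ℂ)‖ ^ 2)) := by
    refine ((riemannZeta_eulerProduct ?_).norm).pow 2
    simp only [ofReal_re]; linarith
  refine le_of_tendsto hlim (Eventually.of_forall fun n => ?_)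
  have h1 := hN n
  rw [Finset.prod_inv_distrib, norm_inv, inv_pow]
  set P : ℝ := ‖∏ p ∈ n.primesBelow, (1 - (p : ℂ) ^ (-((2 * σ : ℝ) : ℂ)))‖ ^ 2 with hP
  have hP0 : 0 < P := by
    rcases (show 0 ≤ P by positivity).lt_or_eq with h | h
    · exact h
    · rw [← h, zero_mul] at h1; linarith
  rw [inv_le_iff_one_le_mul₀ hP0, mul_comm]
  exact h1

theorem core {f : ℕ → ℂ} (hcm : CM (gf f)) (hf : ∀ n, ‖gf f n‖ ≤ 1) (hS : Small f) : False := by
  set fb : ℕ → ℂ := fun n => (starRingEnd ℂ) (f n) with hfb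
  have hSb : Small fb := hS.conj
  -- (σ - 1/2) ‖HH‖ → 0
  have hsm : ∀ h : ℕ → ℂ, Small h →
      Tendsto (fun σ : ℝ => (σ - 1 / 2) * ‖HH h σ‖) (𝓝[>] (1 / 2)) (𝓝 0) := by
    intro h hh
    rw [Metric.tendsto_nhds]
    intro ε hε
    obtain ⟨K, hK⟩ := HH_small hh (half_pos hε)
    have hK' : 0 < |K| + 1 := by positivity
    have h1 : ∀ᶠ σ : ℝ in 𝓝[>] (1 / 2), σ < 1 / 2 + ε / 2 / (|K| + 1) :=
      mem_nhdsWithin_of_mem_nhds (Iio_mem_nhds (by linarith [div_pos (half_pos hε) hK']))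
    filter_upwards [h1, self_mem_nhdsWithin] with σ hσ1 hσ2
    have hσ2' : (1 : ℝ) / 2 < σ := hσ2
    have hd : 0 < σ - 1 / 2 := by linarith
    rw [Real.dist_eq, sub_zero, abs_of_nonneg (by positivity)]
    have h2 := hK σ hσ2'
    have h3 : (σ - 1 / 2) * ‖HH h σ‖ ≤ (σ - 1 / 2) * (ε / 2 / (σ - 1 / 2) + K) :=
      mul_le_mul_of_nonneg_left h2 hd.le
    have h4 : (σ - 1 / 2) * (ε / 2 / (σ - 1 / 2) + K) = ε / 2 + (σ - 1 / 2) * K := by
      rw [mul_add, mul_comm (σ - 1 / 2) (ε / 2 / (σ - 1 / 2)), div_mul_cancel₀ _ hd.ne']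
    have h5 : (σ - 1 / 2) * K < ε / 2 := by
      have h6 : (σ - 1 / 2) * (|K| + 1) < ε / 2 := by
        rw [← lt_div_iff₀ hK']; linarith
      have h7 : (σ - 1 / 2) * K ≤ (σ - 1 / 2) * (|K| + 1) :=
        mul_le_mul_of_nonneg_left (by linarith [le_abs_self K]) hd.le
      linarith
    linarith
  have hR : Tendsto (fun σ : ℝ => ‖Zt σ‖ ^ 2 * (((σ - 1 / 2) * ‖HH f σ‖) *
      ((σ - 1 / 2) * ‖HH fb σ‖))) (𝓝[>] (1 / 2)) (𝓝 (‖Zt ((1 / 2 : ℝ) : ℂ)‖ ^ 2 * (0 * 0))) := by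
    refine Tendsto.mul ?_ ((hsm f hS).mul (hsm fb hSb))
    have hc : Continuous (fun σ : ℝ => ‖Zt σ‖ ^ 2) :=
      ((Zt_differentiable.continuous.comp Complex.continuous_ofReal).norm).pow 2
    exact (hc.tendsto (1 / 2)).mono_left nhdsWithin_le_nhds
  have hL : Tendsto (fun σ : ℝ => ‖((2 * σ : ℝ) : ℂ) - 1‖ ^ 2 *
      ‖riemannZeta ((2 * σ : ℝ) : ℂ)‖ ^ 2) (𝓝[>] (1 / 2)) (𝓝 1) := by
    have h1 : Tendsto (fun σ : ℝ => ((2 * σ : ℝ) : ℂ)) (𝓝[>] (1 / 2)) (𝓝[≠] 1) := by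
      rw [tendsto_nhdsWithin_iff]
      refine ⟨?_, ?_⟩
      · have hc : Continuous (fun σ : ℝ => ((2 * σ : ℝ) : ℂ)) := by fun_prop
        have := (hc.tendsto (1 / 2 : ℝ)).mono_left (nhdsWithin_le_nhds (s := Set.Ioi (1 / 2)))
        simpa using this
      · filter_upwards [self_mem_nhdsWithin] with σ hσ
        have hσ' : (1 : ℝ) / 2 < σ := hσ
        rw [Set.mem_compl_iff, Set.mem_singleton_iff]
        intro h
        have : 2 * σ = 1 := by exact_mod_cast h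
        linarith
    have h2 := (riemannZeta_residue_one.comp h1).norm.pow 2
    simp only [norm_one, one_pow] at h2
    refine h2.congr fun σ => ?_
    simp only [Function.comp_apply, norm_mul]
    ring
  have hineq : ∀ᶠ σ : ℝ in 𝓝[>] (1 / 2), ‖((2 * σ : ℝ) : ℂ) - 1‖ ^ 2 *
      ‖riemannZeta ((2 * σ : ℝ) : ℂ)‖ ^ 2 ≤ 4 * (‖Zt σ‖ ^ 2 * (((σ - 1 / 2) * ‖HH f σ‖) *
      ((σ - 1 / 2) * ‖HH fb σ‖))) := by
    filter_upwards [self_mem_nhdsWithin] with σ hσ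
    have hσ' : (1 : ℝ) / 2 < σ := hσ
    have h1 := key_ineq hcm hf hS hσ'
    have h2 : ‖((2 * σ : ℝ) : ℂ) - 1‖ ^ 2 = 4 * (σ - 1 / 2) ^ 2 := by
      rw [show ((2 * σ : ℝ) : ℂ) - 1 = ((2 * σ - 1 : ℝ) : ℂ) by push_cast; ring, Complex.norm_real,
        Real.norm_eq_abs, sq_abs]
      ring
    rw [h2]
    have h3 : 0 ≤ 4 * (σ - 1 / 2) ^ 2 := by positivity
    calc _ ≤ 4 * (σ - 1 / 2) ^ 2 * (‖Zt σ‖ ^ 2 * (‖HH f σ‖ * ‖HH fb σ‖)) :=
          mul_le_mul_of_nonneg_left h1 h3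
      _ = _ := by ring
  have := le_of_tendsto_of_tendsto hL (hR.const_mul 4) hineq
  simp at this
  linarith

end Pool.Agent.T2h95.CMO
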