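import Pool.Agent.T2h95.CMO.Arith

set_option autoImplicit false

open ArithmeticFunction Complex
open scoped ComplexOrder

namespace Pool.Agent.T2h95.CMO

/-- Landau-type positivity: a nonnegative Dirichlet series with first coefficient `1`, convergent
for `Re s > 1` and continued to `Re s > 1/2`, is at least `1` on the real half-line `s > 1/2`. -/
theorem landau_one {a : ArithmeticFunction ℂ} (ha : ∀ n, 0 ≤ a n) (ha1 : a 1 = 1)
    (hs : ∀ s : ℂ, 1 < s.re → LSeriesSummable a s) {E : ℂ → ℂ}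
    (hE : DifferentiableOn ℂ E {s : ℂ | 1 / 2 < s.re})
    (hEa : ∀ s : ℂ, 1 < s.re → E s = LSeries a s) {σ : ℝ} (hσ : 1 / 2 < σ) :
    1 ≤ E σ := by
  classical
  have hδ : ∀ s : ℂ, LSeriesSummable LSeries.delta s := by
    intro s
    have h : LSeries.term LSeries.delta s = fun n => if n = 1 then (1 : ℂ) else 0 := by
      ext n; exact LSeries.term_delta s n
    unfold LSeriesSummable
    rw [h]
    exact (hasSum_ite_eq (1 : ℕ) (1 : ℂ)).summable
  set b : ℕ → ℂ := (fun n => a n) - LSeries.delta with hb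
  have hb0 : 0 ≤ b := by
    intro n
    simp only [hb, Pi.sub_apply, Pi.zero_apply, LSeries.delta]
    split_ifs with h
    · rw [h, ha1, sub_self]
    · rw [sub_zero]; exact ha n
  have hbs : ∀ s : ℂ, 1 < s.re → LSeriesSummable b s := fun s h => (hs s h).sub (hδ s)
  have hbL : ∀ s : ℂ, 1 < s.re → E s - 1 = LSeries b s := by
    intro s h
    rw [hb, LSeries_sub (hs s h) (hδ s), LSeries_delta, hEa s h]; rfl
  have hbabs : LSeries.abscissaOfAbsConv b ≤ (1 : ℝ) := by
    refine LSeries.abscissaOfAbsConv_le_of_forall_lt_LSeriesSummable fun y hy => hbs _ (by simpa using hy)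
  set x₀ : ℝ := max σ 1 + 1 with hx₀
  have hx1 : 1 < x₀ := lt_of_le_of_lt (le_max_right σ 1) (lt_add_one _)
  have hxσ : σ < x₀ := lt_of_le_of_lt (le_max_left σ 1) (lt_add_one _)
  set F : ℂ → ℂ := fun z => E (-z) - 1 with hF
  have hball : ∀ z ∈ Metric.ball (-(x₀ : ℂ)) (x₀ - 1 / 2), 1 / 2 < (-z).re := by
    intro z hz
    rw [Metric.mem_ball, Complex.dist_eq] at hz
    have h1 := (abs_le.mp (Complex.abs_re_le_norm (z - -(x₀ : ℂ)))).2
    simp only [sub_re, neg_re, ofReal_re] at h1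
    rw [neg_re]
    linarith
  have hFd : DifferentiableOn ℂ F (Metric.ball (-(x₀ : ℂ)) (x₀ - 1 / 2)) := by
    refine DifferentiableOn.sub_const ?_ _
    exact hE.comp (differentiable_neg.differentiableOn) fun z hz => hball z hz
  have hopen : IsOpen {s : ℂ | 1 < s.re} := continuous_re.isOpen_preimage _ isOpen_Ioi
  have hFit : ∀ n, 0 ≤ iteratedDeriv n F (-(x₀ : ℂ)) := by
    intro n
    have h1 : iteratedDeriv n F (-(x₀ : ℂ)) = (-1) ^ n * iteratedDeriv n (fun z => E z - 1) x₀ := by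
      rw [hF]
      have := iteratedDeriv_comp_neg n (fun z => E z - 1) (-(x₀ : ℂ))
      simpa [neg_neg, smul_eq_mul] using this
    rw [h1]
    have h2 : Set.EqOn (fun z => E z - 1) (LSeries b) {s : ℂ | 1 < s.re} := fun s hs => hbL s hs
    have h3 : (x₀ : ℂ) ∈ {s : ℂ | 1 < s.re} := by simpa using hx1
    rw [h2.iteratedDeriv_of_isOpen hopen n h3]
    refine LSeries.iteratedDeriv_alternating hb0 ?_ n
    exact lt_of_le_of_lt hbabs (by exact_mod_cast hx1)
  have hle : -(x₀ : ℂ) ≤ -(σ : ℂ) := by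
    rw [neg_le_neg_iff]; exact_mod_cast hxσ.le
  have hmem : -(σ : ℂ) ∈ Metric.ball (-(x₀ : ℂ)) (x₀ - 1 / 2) := by
    rw [Metric.mem_ball, Complex.dist_eq]
    have : -(σ : ℂ) - -(x₀ : ℂ) = ((x₀ - σ : ℝ) : ℂ) := by push_cast; ring
    rw [this, Complex.norm_real, Real.norm_eq_abs, abs_of_pos (by linarith)]
    linarith
  have := hFd.nonneg_of_iteratedDeriv_nonneg hFit hle hmem
  simp only [hF, neg_neg] at this
  exact sub_nonneg.mp this

end Pool.Agent.T2h95.CMO
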