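import Pool.Agent.T2h95.CMO.Reduce

set_option autoImplicit false

open ArithmeticFunction Complex MeasureTheory Filter Topology

namespace Pool.Agent.T2h95.CMO

theorem core' {f : ArithmeticFunction ℂ} (hf : CM f) (hp : ∀ p : ℕ, p.Prime → (p : ℝ) * ‖f p‖ ≤ 1)
    (h : Tendsto (fun N : ℕ => Real.sqrt N * ‖∑ k ∈ Finset.Icc 1 N, f k‖) atTop (𝓝 0)) :
    False := by
  have hn := hf.norm_le hp
  have hg : ∀ n, ‖gf f n‖ ≤ 1 := by
    intro n
    rw [gf_apply, norm_mul, Complex.norm_natCast]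
    exact hn n
  have hcm : CM (gf f) := by
    refine ⟨by rw [gf_apply, hf.one]; simp, fun m n => ?_⟩
    rw [gf_apply, gf_apply, gf_apply, hf.mul]
    push_cast; ring
  refine core (f := f) hcm hg (small_of_tendsto (fun n hn0 => ?_) h)
  have h1 : (1 : ℝ) ≤ n := by exact_mod_cast hn0
  have := hn n
  nlinarith [norm_nonneg (f n)]

theorem excess_core {f : ArithmeticFunction ℂ} (hf : CM f)
    (he : Summable fun p : Nat.Primes => max ((p : ℝ) * ‖f p‖ - 1) 0 / Real.sqrt p)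
    (h : Tendsto (fun N : ℕ => Real.sqrt N * ‖∑ k ∈ Finset.Icc 1 N, f k‖) atTop (𝓝 0)) :
    False := by
  classical
  set v : ℕ → ℂ := fun p => f p / ((max 1 ((p : ℝ) * ‖f p‖) : ℝ) : ℂ) with hv
  set f₁ := cmOf v with hf₁
  have hcm₁ : CM f₁ := CM_cmOf v
  have hmax : ∀ p : ℕ, 0 < max 1 ((p : ℝ) * ‖f p‖) := fun p => lt_max_of_lt_left one_pos
  have hvn : ∀ p : ℕ, ‖v p‖ = ‖f p‖ / max 1 ((p : ℝ) * ‖f p‖) := by
    intro p
    rw [hv]
    simp only [norm_div, Complex.norm_real, Real.norm_eq_abs, abs_of_pos (hmax p)]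
  have hp₁ : ∀ p : ℕ, p.Prime → (p : ℝ) * ‖f₁ p‖ ≤ 1 := by
    intro p hp
    rw [hf₁, cmOf_prime v hp, hvn, ← mul_div_assoc, div_le_one (hmax p)]
    exact le_max_right _ _
  have hdiff : ∀ p : ℕ, p.Prime → (p : ℝ) * ‖f₁ p - f p‖ = max ((p : ℝ) * ‖f p‖ - 1) 0 := by
    intro p hp
    have hp0 : (0 : ℝ) < p := by exact_mod_cast hp.pos
    rw [hf₁, cmOf_prime v hp]
    rcases le_total ((p : ℝ) * ‖f p‖) 1 with h1 | h1
    · have : v p = f p := by
        simp only [hv, max_eq_left h1]; simp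
      rw [this, sub_self, norm_zero, mul_zero, max_eq_right (by linarith)]
    · have hm : max 1 ((p : ℝ) * ‖f p‖) = (p : ℝ) * ‖f p‖ := max_eq_right h1
      rw [max_eq_left (by linarith)]
      have h2 : v p - f p = f p * (((1 / ((p : ℝ) * ‖f p‖) - 1 : ℝ)) : ℂ) := by
        simp only [hv, hm]
        push_cast
        ring
      have h3 : 0 < (p : ℝ) * ‖f p‖ := by linarith
      rw [h2, norm_mul, Complex.norm_real, Real.norm_eq_abs, abs_of_nonpos]
      · have h4 : (p : ℝ) * (‖f p‖ * -(1 / ((p : ℝ) * ‖f p‖) - 1)) =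
            (p : ℝ) * ‖f p‖ - ((p : ℝ) * ‖f p‖) * (1 / ((p : ℝ) * ‖f p‖)) := by ring
        rw [h4, mul_one_div_cancel h3.ne']
      · rw [sub_nonpos, div_le_one h3]; exact h1
  have hr : Summable fun m : ℕ => ‖rr f₁ f m‖ * Real.sqrt m := by
    have hmult := rr_mult hcm₁ hf
    refine summable_of_prime_powers (u := fun m => ‖rr f₁ f m‖ * Real.sqrt m)
      (e := fun p => 4 * (max ((p : ℝ) * ‖f p‖ - 1) 0 / Real.sqrt p)) (by simp)
      (by simp [hmult.map_one]) (fun n => by positivity) (fun {m n} hmn => ?_)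
      (fun p hp => by positivity) (he.mul_left 4) (fun p hp => ?_)
    · rw [hmult.map_mul_of_coprime hmn, norm_mul, Nat.cast_mul, Real.sqrt_mul (Nat.cast_nonneg _)]
      ring
    · set e0 : ℝ := max ((p : ℝ) * ‖f p‖ - 1) 0 / Real.sqrt p with he0
      have he00 : 0 ≤ e0 := by positivity
      have hp0 : (0 : ℝ) < p := by exact_mod_cast hp.pos
      have hp2 : (2 : ℝ) ≤ p := by exact_mod_cast hp.two_le
      have hsp : 0 < Real.sqrt p := Real.sqrt_pos.mpr hp0
      have hss : Real.sqrt p * Real.sqrt p = p := Real.mul_self_sqrt hp0.le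
      have hq : (Real.sqrt p)⁻¹ ≤ 3 / 4 := by
        rw [inv_le_comm₀ hsp (by norm_num)]
        refine Real.le_sqrt_of_sq_le ?_
        norm_num; linarith
      have hbound : ∀ k : ℕ, ‖rr f₁ f (p ^ (k + 1))‖ * Real.sqrt ((p ^ (k + 1) : ℕ) : ℝ) ≤
          e0 * (3 / 4) ^ k := by
        intro k
        rw [rr_prime_pow hcm₁ hf hp, norm_mul, norm_pow]
        have h1 : ‖f₁ p‖ ≤ (p : ℝ)⁻¹ := by
          rw [← one_div, le_div_iff₀ hp0, mul_comm]; exact hp₁ p hp
        have h2 : ‖f₁ p - f p‖ = max ((p : ℝ) * ‖f p‖ - 1) 0 / p := by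
          rw [← hdiff p hp]; field_simp
        have h3 : Real.sqrt ((p ^ (k + 1) : ℕ) : ℝ) = Real.sqrt p ^ k * Real.sqrt p := by
          rw [Nat.cast_pow, ← pow_succ]
          have h31 : ((p : ℝ)) ^ (k + 1) = (Real.sqrt p ^ (k + 1)) ^ 2 := by
            rw [← pow_mul, mul_comm, pow_mul, Real.sq_sqrt hp0.le]
          rw [h31, Real.sqrt_sq (by positivity)]
        have h4 : ‖f₁ p‖ ^ k ≤ ((p : ℝ)⁻¹) ^ k := pow_le_pow_left₀ (norm_nonneg _) h1 k
        rw [h3, h2]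
        calc ‖f₁ p‖ ^ k * (max ((p : ℝ) * ‖f p‖ - 1) 0 / p) * (Real.sqrt p ^ k * Real.sqrt p)
            ≤ ((p : ℝ)⁻¹) ^ k * (max ((p : ℝ) * ‖f p‖ - 1) 0 / p) *
                (Real.sqrt p ^ k * Real.sqrt p) := by
              refine mul_le_mul_of_nonneg_right ?_ (by positivity)
              exact mul_le_mul_of_nonneg_right h4 (by positivity)
          _ = e0 * ((Real.sqrt p)⁻¹) ^ k := by
              rw [he0]
              have h5 : ((p : ℝ)⁻¹) ^ k * Real.sqrt p ^ k = ((Real.sqrt p)⁻¹) ^ k := by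
                rw [← mul_pow]
                congr 1
                nth_rewrite 1 [← hss]
                field_simp
              calc _ = (((p : ℝ)⁻¹) ^ k * Real.sqrt p ^ k) *
                    (max ((p : ℝ) * ‖f p‖ - 1) 0 * (Real.sqrt p / p)) := by ring
                _ = ((Real.sqrt p)⁻¹) ^ k * (max ((p : ℝ) * ‖f p‖ - 1) 0 * (Real.sqrt p)⁻¹) := by
                    rw [h5]
                    congr 2
                    nth_rewrite 2 [← hss]
                    field_simp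
                _ = _ := by ring
          _ ≤ e0 * (3 / 4) ^ k :=
              mul_le_mul_of_nonneg_left (pow_le_pow_left₀ (by positivity) hq k) he00
      have hgeo : Summable fun k : ℕ => e0 * (3 / 4 : ℝ) ^ k :=
        (summable_geometric_of_lt_one (by norm_num) (by norm_num)).mul_left e0
      have hs1 : Summable fun k : ℕ => ‖rr f₁ f (p ^ (k + 1))‖ *
          Real.sqrt ((p ^ (k + 1) : ℕ) : ℝ) :=
        Summable.of_nonneg_of_le (fun k => by positivity) hbound hgeo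
      have hs0 : Summable fun k : ℕ => ‖rr f₁ f (p ^ k)‖ * Real.sqrt ((p ^ k : ℕ) : ℝ) :=
        (summable_nat_add_iff 1).mp hs1
      refine ⟨hs0, ?_⟩
      rw [hs0.tsum_eq_zero_add]
      have h6 : ∑' k : ℕ, ‖rr f₁ f (p ^ (k + 1))‖ * Real.sqrt ((p ^ (k + 1) : ℕ) : ℝ) ≤ 4 * e0 := by
        refine (hs1.tsum_le_tsum hbound hgeo).trans (le_of_eq ?_)
        rw [tsum_mul_left, tsum_geometric_of_lt_one (by norm_num) (by norm_num)]
        norm_num; ring
      have h7 : ‖rr f₁ f (p ^ 0)‖ * Real.sqrt ((p ^ 0 : ℕ) : ℝ) = 1 := by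
        simp [hmult.map_one]
      rw [h7]
      linarith
  exact core' hcm₁ hp₁ (tendsto_conv (rr_mul hf) hr h)

/-- a function `ℕ → ℂ` as an arithmetic function -/
noncomputable def toA (f : ℕ → ℂ) : ArithmeticFunction ℂ :=
  ⟨fun n => if n = 0 then 0 else f n, by simp⟩

lemma toA_apply (f : ℕ → ℂ) {n : ℕ} (hn : n ≠ 0) : toA f n = f n := if_neg hn

lemma CM_toA {f : ℕ → ℂ} (h1 : f 1 = 1) (hm : ∀ m n : ℕ, 0 < m → 0 < n → f (m * n) = f m * f n) :
    CM (toA f) := by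
  refine ⟨by rw [toA_apply f one_ne_zero, h1], fun m n => ?_⟩
  rcases Nat.eq_zero_or_pos m with rfl | hm0
  · simp
  rcases Nat.eq_zero_or_pos n with rfl | hn0
  · simp
  rw [toA_apply f (by positivity), toA_apply f hm0.ne', toA_apply f hn0.ne', hm m n hm0 hn0]

lemma sum_toA (f : ℕ → ℂ) (N : ℕ) :
    ∑ k ∈ Finset.Icc 1 N, toA f k = ∑ k ∈ Finset.Icc 1 N, f k := by
  refine Finset.sum_congr rfl fun k hk => toA_apply f ?_
  have := (Finset.mem_Icc.mp hk).1
  omega

/-- the negation of the conclusion of Q1 is `√N |S(N)| → 0` -/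
lemma tendsto_of_not {S : ℕ → ℂ} (h : ¬ ∃ c : ℝ, 0 < c ∧ ∀ M : ℕ, ∃ N : ℕ, M ≤ N ∧ 0 < N ∧
    c / Real.sqrt (N : ℝ) ≤ ‖S N‖) :
    Tendsto (fun N : ℕ => Real.sqrt N * ‖S N‖) atTop (𝓝 0) := by
  push Not at h
  rw [Metric.tendsto_atTop]
  intro ε hε
  obtain ⟨M, hM⟩ := h ε hε
  refine ⟨M + 1, fun N hN => ?_⟩
  have hN0 : 0 < N := by omega
  have h1 := hM N (by omega) hN0
  have hs : 0 < Real.sqrt N := Real.sqrt_pos.mpr (by exact_mod_cast hN0)
  rw [Real.dist_eq, sub_zero, abs_of_nonneg (by positivity)]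
  rw [lt_div_iff₀ hs] at h1
  linarith

end Pool.Agent.T2h95.CMO
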