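import Pool.Agent.T2h95.CMO.Core

set_option autoImplicit false

open ArithmeticFunction Complex MeasureTheory Filter Topology
open scoped ComplexOrder ArithmeticFunction.Moebius ArithmeticFunction.zeta

namespace Pool.Agent.T2h95.CMO

/-- from natural-number decay to `Small` -/
theorem small_of_tendsto {f : ℕ → ℂ} (hf : ∀ n : ℕ, 0 < n → ‖f n‖ ≤ 1)
    (h : Tendsto (fun N : ℕ => Real.sqrt N * ‖∑ k ∈ Finset.Icc 1 N, f k‖) atTop (𝓝 0)) :
    Small f := by
  refine ⟨fun t ht => ?_, fun ε hε => ?_⟩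
  · have h1 : ‖Sf f t‖ ≤ ∑ k ∈ Finset.Icc 1 ⌊t⌋₊, (1 : ℝ) := by
      refine (norm_sum_le _ _).trans (Finset.sum_le_sum fun k hk => hf k ?_)
      exact (Finset.mem_Icc.mp hk).1
    refine h1.trans ?_
    simp only [Finset.sum_const, Nat.card_Icc, Nat.add_sub_cancel, nsmul_eq_mul, mul_one]
    exact Nat.floor_le (by linarith)
  · have hε2 : 0 < ε / 2 := half_pos hε
    obtain ⟨M, hM⟩ := eventually_atTop.mp ((tendsto_order.mp h).2 (ε / 2) hε2)
    refine ⟨max (M + 1) 1, le_max_right _ _, fun t ht => ?_⟩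
    have ht1 : 1 ≤ t := (le_max_right _ _).trans ht
    have ht0 : 0 < t := by linarith
    have hMt : M ≤ ⌊t⌋₊ := Nat.le_floor (by
      have := (le_max_left _ _).trans ht
      linarith)
    have hfl : 1 ≤ ⌊t⌋₊ := Nat.le_floor (by exact_mod_cast ht1)
    have h1 := hM _ hMt
    have h2 : Real.sqrt t ≤ 2 * Real.sqrt (⌊t⌋₊ : ℝ) := by
      have h3 : t ≤ 4 * (⌊t⌋₊ : ℝ) := by
        have := (Nat.lt_floor_add_one t).le
        have h4 : (1 : ℝ) ≤ (⌊t⌋₊ : ℝ) := by exact_mod_cast hfl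
        linarith
      calc Real.sqrt t ≤ Real.sqrt (4 * (⌊t⌋₊ : ℝ)) := Real.sqrt_le_sqrt h3
        _ = 2 * Real.sqrt (⌊t⌋₊ : ℝ) := by
            rw [Real.sqrt_mul (by norm_num)]
            rw [show (4 : ℝ) = 2 ^ 2 by norm_num, Real.sqrt_sq (by norm_num)]
    have h5 : Real.sqrt t * ‖Sf f t‖ ≤ ε := by
      have h6 : Real.sqrt t * ‖Sf f t‖ ≤ 2 * Real.sqrt (⌊t⌋₊ : ℝ) * ‖Sf f t‖ :=
        mul_le_mul_of_nonneg_right h2 (norm_nonneg _)
      have h7 : 2 * Real.sqrt (⌊t⌋₊ : ℝ) * ‖Sf f t‖ =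
          2 * (Real.sqrt (⌊t⌋₊ : ℝ) * ‖∑ k ∈ Finset.Icc 1 ⌊t⌋₊, f k‖) := by
        rw [Sf]; ring
      linarith
    have hs : 0 < Real.sqrt t := Real.sqrt_pos.mpr ht0
    have h8 : t ^ (-(1 / 2) : ℝ) = (Real.sqrt t)⁻¹ := by
      rw [Real.rpow_neg ht0.le, Real.sqrt_eq_rpow]
    rw [h8, ← div_eq_mul_inv, le_div_iff₀ hs, mul_comm]
    exact h5

/-- completely multiplicative function with prescribed values at the primes -/
noncomputable def cmOf (v : ℕ → ℂ) : ArithmeticFunction ℂ :=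
  ⟨fun n => if n = 0 then 0 else n.factorization.prod fun p k => v p ^ k, by simp⟩

lemma cmOf_apply (v : ℕ → ℂ) (n : ℕ) :
    cmOf v n = if n = 0 then 0 else n.factorization.prod fun p k => v p ^ k := rfl

lemma CM_cmOf (v : ℕ → ℂ) : CM (cmOf v) := by
  refine ⟨by simp [cmOf_apply], fun m n => ?_⟩
  simp only [cmOf_apply, mul_eq_zero]
  by_cases h1 : m = 0
  · simp [h1]
  by_cases h2 : n = 0
  · simp [h2]
  rw [if_neg (by tauto), if_neg h1, if_neg h2, Nat.factorization_mul h1 h2,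
    Finsupp.prod_add_index']
  · intro a; exact pow_zero _
  · intro a b c; exact pow_add _ _ _

lemma cmOf_prime (v : ℕ → ℂ) {p : ℕ} (hp : p.Prime) : cmOf v p = v p := by
  rw [cmOf_apply, if_neg hp.ne_zero, hp.factorization,
    Finsupp.prod_single_index (h := fun p k => v p ^ k) (pow_zero _), pow_one]

lemma CM.pow {h : ArithmeticFunction ℂ} (hh : CM h) (p k : ℕ) : h (p ^ k) = h p ^ k := by
  induction k with
  | zero => rw [pow_zero, pow_zero, hh.one]
  | succ k ih => rw [pow_succ, hh.mul, ih, pow_succ]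

lemma CM.norm_le {h : ArithmeticFunction ℂ} (hh : CM h)
    (hp : ∀ p : ℕ, p.Prime → (p : ℝ) * ‖h p‖ ≤ 1) (n : ℕ) : (n : ℝ) * ‖h n‖ ≤ 1 := by
  induction n using Nat.recOnMul with
  | zero => simp
  | one => simp [hh.one]
  | prime p hp' => exact hp p hp'
  | mul a b ha hb =>
    rw [hh.mul, norm_mul, Nat.cast_mul]
    calc (a : ℝ) * b * (‖h a‖ * ‖h b‖) = (a * ‖h a‖) * (b * ‖h b‖) := by ring
      _ ≤ 1 * 1 := mul_le_mul ha hb (by positivity) zero_le_one
      _ = 1 := one_mul 1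

lemma CM.isMult {h : ArithmeticFunction ℂ} (hh : CM h) : h.IsMultiplicative :=
  ⟨hh.one, fun {m n} _ => hh.mul m n⟩

/-- the Dirichlet inverse `μ f` of a completely multiplicative `f` -/
noncomputable def muf (f : ArithmeticFunction ℂ) : ArithmeticFunction ℂ :=
  (μ : ArithmeticFunction ℂ).pmul f

lemma muf_apply (f : ArithmeticFunction ℂ) (n : ℕ) : muf f n = (μ n : ℂ) * f n := by
  rw [muf, ArithmeticFunction.pmul_apply, ArithmeticFunction.intCoe_apply]

lemma muf_mul {f : ArithmeticFunction ℂ} (hf : CM f) : muf f * f = 1 := by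
  ext n
  have h1 : (muf f * f) n = f n * ((μ : ArithmeticFunction ℂ) * (ζ : ArithmeticFunction ℂ)) n := by
    rw [ArithmeticFunction.mul_apply, ArithmeticFunction.mul_apply, Finset.mul_sum]
    refine Finset.sum_congr rfl fun x hx => ?_
    obtain ⟨hx, hn⟩ := Nat.mem_divisorsAntidiagonal.mp hx
    have h2 : x.2 ≠ 0 := by rintro h; apply hn; rw [← hx, h, mul_zero]
    rw [muf_apply, ← hx, hf.mul, ArithmeticFunction.intCoe_apply, ArithmeticFunction.natCoe_apply,
      ArithmeticFunction.zeta_apply, if_neg h2, Nat.cast_one]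
    ring
  rw [h1, ArithmeticFunction.coe_moebius_mul_coe_zeta, ArithmeticFunction.one_apply]
  split_ifs with h
  · rw [h, hf.one, one_mul]
  · rw [mul_zero]

/-- the correction factor `f₁ * f⁻¹` -/
noncomputable def rr (f₁ f : ArithmeticFunction ℂ) : ArithmeticFunction ℂ := f₁ * muf f

lemma rr_mul {f₁ f : ArithmeticFunction ℂ} (hf : CM f) : rr f₁ f * f = f₁ := by
  rw [rr, mul_assoc, muf_mul hf, mul_one]

lemma rr_mult {f₁ f : ArithmeticFunction ℂ} (hf₁ : CM f₁) (hf : CM f) :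
    (rr f₁ f).IsMultiplicative :=
  hf₁.isMult.mul ((ArithmeticFunction.isMultiplicative_moebius.intCast).pmul hf.isMult)

lemma rr_prime_pow {f₁ f : ArithmeticFunction ℂ} (hf₁ : CM f₁) (hf : CM f) {p : ℕ} (hp : p.Prime)
    (k : ℕ) : rr f₁ f (p ^ (k + 1)) = f₁ p ^ k * (f₁ p - f p) := by
  rw [rr, mul_comm f₁, ArithmeticFunction.mul_apply,
    Nat.sum_divisorsAntidiagonal (f := fun a b => muf f a * f₁ b), Nat.divisors_prime_pow hp,
    Finset.sum_map, Finset.sum_range_succ', Finset.sum_range_succ']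
  have h0 : ∑ i ∈ Finset.range k, muf f ((⟨(p ^ ·), Nat.pow_right_injective hp.two_le⟩ : ℕ ↪ ℕ)
      (i + 1 + 1)) * f₁ (p ^ (k + 1) / (⟨(p ^ ·), Nat.pow_right_injective hp.two_le⟩ : ℕ ↪ ℕ)
      (i + 1 + 1)) = 0 := by
    refine Finset.sum_eq_zero fun i _ => ?_
    simp only [Function.Embedding.coeFn_mk]
    rw [muf_apply, ArithmeticFunction.moebius_apply_prime_pow hp (by omega), if_neg (by omega)]
    simp
  rw [h0]
  simp only [Function.Embedding.coeFn_mk, zero_add, pow_one, pow_zero, Nat.div_one]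
  rw [muf_apply, muf_apply, ArithmeticFunction.moebius_apply_one,
    ArithmeticFunction.moebius_apply_prime hp, hf.one, pow_succ,
    Nat.mul_div_cancel _ hp.pos, hf₁.pow, hf₁.mul, hf₁.pow]
  push_cast
  ring

/-- summability of a nonnegative multiplicative function from its values at prime powers -/
theorem summable_of_prime_powers {u : ℕ → ℝ} (hu0 : u 0 = 0) (hu1 : u 1 = 1)
    (hu : ∀ n, 0 ≤ u n) (hmul : ∀ {m n : ℕ}, Nat.Coprime m n → u (m * n) = u m * u n)
    {e : ℕ → ℝ} (he : ∀ p : ℕ, p.Prime → 0 ≤ e p) (hes : Summable fun p : Nat.Primes => e p)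
    (hpp : ∀ p : ℕ, p.Prime → Summable (fun k : ℕ => u (p ^ k)) ∧
      ∑' k : ℕ, u (p ^ k) ≤ 1 + e p) : Summable u := by
  classical
  have hnorm : ∀ n, ‖u n‖ = u n := fun n => by rw [Real.norm_eq_abs, abs_of_nonneg (hu n)]
  refine summable_of_sum_le (c := Real.exp (∑' p : Nat.Primes, e p)) hu fun T => ?_
  obtain ⟨N, hN⟩ : ∃ N : ℕ, ∀ n ∈ T, n < N := ⟨T.sup id + 1, fun n hn =>
    Nat.lt_succ_of_le (Finset.le_sup (f := id) hn)⟩
  obtain ⟨h1, h2⟩ := EulerProduct.summable_and_hasSum_smoothNumbers_prod_primesBelow_tsum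
    (f := u) hu1 hmul (fun {p} hp => by simpa only [hnorm] using (hpp p hp).1) N
  have h3 : HasSum ((N.smoothNumbers : Set ℕ).indicator u)
      (∏ p ∈ N.primesBelow, ∑' n : ℕ, u (p ^ n)) := hasSum_subtype_iff_indicator.mp h2
  have h4 : ∑ n ∈ T, u n = ∑ n ∈ T, (N.smoothNumbers : Set ℕ).indicator u n := by
    refine Finset.sum_congr rfl fun n hn => ?_
    rcases Nat.eq_zero_or_pos n with h0 | h0
    · rw [h0, hu0]
      by_cases h : (0 : ℕ) ∈ (N.smoothNumbers : Set ℕ)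
      · rw [Set.indicator_of_mem h, hu0]
      · rw [Set.indicator_of_notMem h]
    · rw [Set.indicator_of_mem (Nat.mem_smoothNumbers_of_lt h0 (hN n hn))]
  rw [h4]
  refine (sum_le_hasSum T (fun n _ => Set.indicator_nonneg (fun n _ => hu n) n) h3).trans ?_
  have h5 : ∏ p ∈ N.primesBelow, ∑' n : ℕ, u (p ^ n) ≤ ∏ p ∈ N.primesBelow, Real.exp (e p) := by
    refine Finset.prod_le_prod (fun p hp => tsum_nonneg fun k => hu _) fun p hp => ?_
    refine (hpp p (Nat.prime_of_mem_primesBelow hp)).2.trans ?_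
    rw [add_comm]; exact Real.add_one_le_exp _
  refine h5.trans ?_
  rw [← Real.exp_sum]
  refine Real.exp_le_exp.mpr ?_
  have h6 : ∑ p ∈ N.primesBelow, e p =
      ∑ p ∈ N.primesBelow.subtype Nat.Prime, e (p : ℕ) := by
    rw [Finset.sum_subtype_eq_sum_filter, Finset.filter_true_of_mem]
    intro p hp; exact Nat.prime_of_mem_primesBelow hp
  rw [h6]
  have h7 : ∀ t : Finset Nat.Primes, ∑ p ∈ t, e (p : ℕ) ≤ ∑' p : Nat.Primes, e p := fun t =>
    Summable.sum_le_tsum t (fun p _ => he p p.2) hes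
  exact h7 (N.primesBelow.subtype Nat.Prime)

/-- convolution with an absolutely convergent factor preserves `S(N) = o(N^{-1/2})` -/
theorem tendsto_conv {r f f₁ : ArithmeticFunction ℂ} (hrf : r * f = f₁)
    (hr : Summable fun m : ℕ => ‖r m‖ * Real.sqrt m)
    (h : Tendsto (fun N : ℕ => Real.sqrt N * ‖∑ k ∈ Finset.Icc 1 N, f k‖) atTop (𝓝 0)) :
    Tendsto (fun N : ℕ => Real.sqrt N * ‖∑ k ∈ Finset.Icc 1 N, f₁ k‖) atTop (𝓝 0) := by
  classical
  set a : ℕ → ℝ := fun N => Real.sqrt N * ‖∑ k ∈ Finset.Icc 1 N, f k‖ with ha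
  have ha0 : ∀ N, 0 ≤ a N := fun N => by positivity
  obtain ⟨C, hC⟩ := h.bddAbove_range
  have hC' : ∀ N, a N ≤ C := fun N => hC ⟨N, rfl⟩
  have hC0 : 0 ≤ C := (ha0 0).trans (hC' 0)
  -- the majorant terms
  set F : ℕ → ℕ → ℝ := fun N m => if m ∈ Finset.Icc 1 N then
    (‖r m‖ * Real.sqrt m) * (2 * a (N / m)) else 0 with hF
  have hF0 : Tendsto (fun N => ∑' m, F N m) atTop (𝓝 (∑' m : ℕ, (0 : ℝ))) := by
    refine tendsto_tsum_of_dominated_convergence (bound := fun m => (‖r m‖ * Real.sqrt m) * (2 * C))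
      (hr.mul_right _) ?_ ?_
    · intro m
      rcases Nat.eq_zero_or_pos m with hm | hm
      · refine tendsto_const_nhds.congr fun N => ?_
        simp [hF, hm]
      · have h1 : Tendsto (fun N : ℕ => N / m) atTop atTop :=
          Nat.tendsto_div_const_atTop hm.ne'
        have h2 : Tendsto (fun N : ℕ => (‖r m‖ * Real.sqrt m) * (2 * a (N / m))) atTop (𝓝 0) := by
          have := ((h.comp h1).const_mul 2).const_mul (‖r m‖ * Real.sqrt m)
          simpa using this
        refine h2.congr' ?_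
        filter_upwards [eventually_ge_atTop m] with N hN
        simp only [hF]
        rw [if_pos (Finset.mem_Icc.mpr ⟨hm, hN⟩)]
    · refine Eventually.of_forall fun N m => ?_
      simp only [hF]
      split_ifs with hm
      · rw [Real.norm_eq_abs, abs_of_nonneg (mul_nonneg (by positivity) (by have := ha0 (N / m); positivity))]
        exact mul_le_mul_of_nonneg_left (by linarith [hC' (N / m)]) (by positivity)
      · rw [norm_zero]; positivity
  rw [tsum_zero] at hF0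
  refine squeeze_zero (fun N => by positivity) (fun N => ?_) hF0
  have hIoc : ∀ (h : ArithmeticFunction ℂ) (M : ℕ), ∑ k ∈ Finset.Icc 1 M, h k =
      ∑ k ∈ Finset.Ioc 0 M, h k := fun h M => rfl
  have e1 : ∑ k ∈ Finset.Icc 1 N, f₁ k = ∑ m ∈ Finset.Icc 1 N, r m *
      ∑ k ∈ Finset.Icc 1 (N / m), f k := by
    rw [← hrf]
    exact ArithmeticFunction.sum_Ioc_mul_eq_sum_sum r f N
  have e2 : ∑' m, F N m = ∑ m ∈ Finset.Icc 1 N, (‖r m‖ * Real.sqrt m) * (2 * a (N / m)) := by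
    rw [tsum_eq_sum (s := Finset.Icc 1 N)]
    · refine Finset.sum_congr rfl fun m hm => ?_
      simp only [hF]; rw [if_pos hm]
    · intro m hm
      simp only [hF]; rw [if_neg hm]
  rw [e1, e2]
  calc Real.sqrt N * ‖∑ m ∈ Finset.Icc 1 N, r m * ∑ k ∈ Finset.Icc 1 (N / m), f k‖
      ≤ Real.sqrt N * ∑ m ∈ Finset.Icc 1 N, ‖r m‖ * ‖∑ k ∈ Finset.Icc 1 (N / m), f k‖ := by
        refine mul_le_mul_of_nonneg_left ?_ (Real.sqrt_nonneg _)
        refine (norm_sum_le _ _).trans (le_of_eq ?_)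
        exact Finset.sum_congr rfl fun m _ => norm_mul _ _
    _ = ∑ m ∈ Finset.Icc 1 N, Real.sqrt N * (‖r m‖ * ‖∑ k ∈ Finset.Icc 1 (N / m), f k‖) :=
        Finset.mul_sum _ _ _
    _ ≤ _ := by
        refine Finset.sum_le_sum fun m hm => ?_
        obtain ⟨hm1, hmN⟩ := Finset.mem_Icc.mp hm
        have hq : 1 ≤ N / m := (Nat.one_le_div_iff hm1).mpr hmN
        have h3 : (N : ℝ) ≤ 4 * ((m : ℝ) * ((N / m : ℕ) : ℝ)) := by
          have h4 : N < m * (N / m) + m := by
            have := Nat.div_add_mod N m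
            have := Nat.mod_lt N hm1
            omega
          have h5 : m ≤ m * (N / m) := Nat.le_mul_of_pos_right m hq
          have h6 : N ≤ 4 * (m * (N / m)) := by omega
          exact_mod_cast h6
        have h4 : Real.sqrt N ≤ 2 * (Real.sqrt m * Real.sqrt ((N / m : ℕ) : ℝ)) := by
          refine (Real.sqrt_le_sqrt h3).trans (le_of_eq ?_)
          rw [Real.sqrt_mul (by norm_num), Real.sqrt_mul (Nat.cast_nonneg _),
            show (4 : ℝ) = 2 ^ 2 by norm_num, Real.sqrt_sq (by norm_num)]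
        calc Real.sqrt N * (‖r m‖ * ‖∑ k ∈ Finset.Icc 1 (N / m), f k‖)
            ≤ 2 * (Real.sqrt m * Real.sqrt ((N / m : ℕ) : ℝ)) *
              (‖r m‖ * ‖∑ k ∈ Finset.Icc 1 (N / m), f k‖) :=
              mul_le_mul_of_nonneg_right h4 (by positivity)
          _ = _ := by simp only [ha]; ring

end Pool.Agent.T2h95.CMO
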