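import Pool.Agent.T2h95.CMO.Landau

set_option autoImplicit false

open ArithmeticFunction Complex
open scoped ComplexOrder

namespace Pool.Agent.T2h95.CMO

/-- kill the multiples of `p` -/
noncomputable def strip (p : ℕ) (h : ArithmeticFunction ℂ) : ArithmeticFunction ℂ :=
  ⟨fun n => if p ∣ n then 0 else h n, by simp⟩

lemma strip_apply (p : ℕ) (h : ArithmeticFunction ℂ) (n : ℕ) :
    strip p h n = if p ∣ n then 0 else h n := rfl

lemma CM.strip {h : ArithmeticFunction ℂ} (hh : CM h) {p : ℕ} (hp : p.Prime) : CM (strip p h) := by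
  refine ⟨?_, fun m n => ?_⟩
  · rw [strip_apply, if_neg (fun h => hp.one_lt.ne' (Nat.dvd_one.mp h)), hh.one]
  · simp only [strip_apply, hp.dvd_mul]
    by_cases h1 : p ∣ m
    · simp [h1]
    · by_cases h2 : p ∣ n
      · simp [h2]
      · simp [h1, h2, hh.mul]

lemma cj_strip (p : ℕ) (h : ArithmeticFunction ℂ) : cj (strip p h) = strip p (cj h) := by
  ext n
  rw [cj_apply, strip_apply, strip_apply, cj_apply]
  split_ifs <;> simp

theorem LSeries_strip {h₀ : ArithmeticFunction ℂ} (hh : CM h₀) {p : ℕ} (hp : p.Prime) {s : ℂ}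
    (hs : LSeriesSummable h₀ s) : LSeriesSummable (strip p h₀) s ∧
      LSeries (strip p h₀) s = (1 - h₀ p * (p : ℂ) ^ (-s)) * LSeries h₀ s := by
  classical
  set q : ℕ → ℂ := fun n => if p ∣ n then LSeries.term h₀ s n else 0 with hq
  have hqs : Summable q := by
    have h := Summable.indicator hs {n : ℕ | p ∣ n}
    have h' : q = Set.indicator {n : ℕ | p ∣ n} (LSeries.term h₀ s) := by
      ext n; simp [hq, Set.indicator_apply]
    rw [h']; exact h
  have hterm : LSeries.term (strip p h₀) s = fun n => LSeries.term h₀ s n - q n := by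
    ext n
    simp only [hq, LSeries.term_def, strip_apply]
    split_ifs <;> simp
  have hpm : ∀ m, LSeries.term h₀ s (p * m) = h₀ p * (p : ℂ) ^ (-s) * LSeries.term h₀ s m := by
    intro m
    rcases eq_or_ne m 0 with rfl | hm
    · simp [LSeries.term_def]
    · have h1 : p * m ≠ 0 := mul_ne_zero hp.ne_zero hm
      have hp0 : (p : ℂ) ≠ 0 := by exact_mod_cast hp.ne_zero
      rw [LSeries.term_def, LSeries.term_def, if_neg h1, if_neg hm, hh.mul, Nat.cast_mul,
        Complex.natCast_mul_natCast_cpow, Complex.cpow_neg]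
      have h2 : (p : ℂ) ^ s ≠ 0 := by rw [Ne, Complex.cpow_eq_zero_iff]; tauto
      have h3 : (m : ℂ) ^ s ≠ 0 := by
        rw [Ne, Complex.cpow_eq_zero_iff]
        have : (m : ℂ) ≠ 0 := by exact_mod_cast hm
        tauto
      field_simp
  have hqt : ∑' n, q n = h₀ p * (p : ℂ) ^ (-s) * LSeries h₀ s := by
    have hinj : Function.Injective (fun m : ℕ => p * m) := fun a b hab =>
      Nat.eq_of_mul_eq_mul_left hp.pos hab
    have hsup : Function.support q ⊆ Set.range (fun m : ℕ => p * m) := by
      intro n hn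
      simp only [hq, Function.mem_support, ne_eq, ite_eq_right_iff, Classical.not_imp] at hn
      obtain ⟨⟨m, rfl⟩, _⟩ := hn
      exact ⟨m, rfl⟩
    have h1 : ∀ m, q (p * m) = h₀ p * (p : ℂ) ^ (-s) * LSeries.term h₀ s m := by
      intro m
      rw [← hpm m, hq]
      exact if_pos (dvd_mul_right p m)
    have h2 := hinj.tsum_eq hsup
    rw [← h2, tsum_congr h1, tsum_mul_left]
    rfl
  refine ⟨?_, ?_⟩
  · unfold LSeriesSummable
    rw [hterm]
    exact Summable.sub hs hqs
  · have h3 : LSeries (strip p h₀) s = ∑' n, (LSeries.term h₀ s n - q n) := by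
      unfold LSeries; rw [hterm]
    rw [h3, Summable.tsum_sub hs hqs, hqt]
    have h4 : ∑' n, LSeries.term h₀ s n = LSeries h₀ s := rfl
    rw [h4]
    ring

/-- kill all the multiples of the primes below `N` -/
noncomputable def rough : ℕ → ArithmeticFunction ℂ → ArithmeticFunction ℂ
  | 0, h => h
  | N + 1, h => if N.Prime then strip N (rough N h) else rough N h

lemma CM.rough {h : ArithmeticFunction ℂ} (hh : CM h) (N : ℕ) : CM (rough N h) := by
  induction N with
  | zero => exact hh
  | succ N ih =>
    by_cases hN : N.Prime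
    · simp only [CMO.rough, if_pos hN]; exact ih.strip hN
    · simp only [CMO.rough, if_neg hN]; exact ih

lemma cj_rough (N : ℕ) (h : ArithmeticFunction ℂ) : cj (rough N h) = rough N (cj h) := by
  induction N with
  | zero => rfl
  | succ N ih =>
    by_cases hN : N.Prime
    · simp only [CMO.rough, if_pos hN]; rw [cj_strip, ih]
    · simp only [CMO.rough, if_neg hN]; exact ih

lemma rough_prime {h : ArithmeticFunction ℂ} {N q : ℕ} (hq : q.Prime) (hNq : N ≤ q) :
    rough N h q = h q := by
  induction N with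
  | zero => rfl
  | succ N ih =>
    by_cases hN : N.Prime
    · simp only [CMO.rough, if_pos hN]
      rw [strip_apply, if_neg, ih (by omega)]
      intro hd
      have := (Nat.prime_dvd_prime_iff_eq hN hq).mp hd
      omega
    · simp only [CMO.rough, if_neg hN]; exact ih (by omega)

lemma rough_le {u g : ArithmeticFunction ℂ} (h : ∀ n, ((‖g n‖ : ℝ) : ℂ) ≤ u n) (N : ℕ) :
    ∀ n, ((‖rough N g n‖ : ℝ) : ℂ) ≤ rough N u n := by
  induction N with
  | zero => exact h
  | succ N ih =>
    by_cases hN : N.Prime
    · intro n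
      simp only [CMO.rough, if_pos hN, strip_apply]
      split_ifs
      · simp
      · exact ih n
    · intro n
      simp only [CMO.rough, if_neg hN]; exact ih n

theorem LSeries_rough {h : ArithmeticFunction ℂ} (hh : CM h) (N : ℕ) {s : ℂ}
    (hs : LSeriesSummable h s) : LSeriesSummable (rough N h) s ∧
      LSeries (rough N h) s = (∏ p ∈ N.primesBelow, (1 - h p * (p : ℂ) ^ (-s))) * LSeries h s := by
  induction N with
  | zero => exact ⟨hs, by simp [rough]⟩
  | succ N ih =>
    by_cases hN : N.Prime
    · simp only [CMO.rough, if_pos hN]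
      obtain ⟨h1, h2⟩ := LSeries_strip (hh.rough N) hN ih.1
      refine ⟨h1, ?_⟩
      rw [h2, ih.2, rough_prime hN le_rfl, Nat.primesBelow_succ, if_pos hN,
        Finset.prod_insert (by simp [Nat.mem_primesBelow])]
      ring
    · simp only [CMO.rough, if_neg hN]
      rw [Nat.primesBelow_succ, if_neg hN]
      exact ih

theorem LSeries_four {u g : ArithmeticFunction ℂ} {s : ℂ} (hu : LSeriesSummable u s)
    (hg : LSeriesSummable g s) (hcg : LSeriesSummable (cj g) s) :
    LSeriesSummable (four u g) s ∧
      LSeries (four u g) s = LSeries u s ^ 2 * (LSeries g s * LSeries (cj g) s) := by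
  have h1 := ArithmeticFunction.LSeriesSummable_mul hu hu
  have h2 := ArithmeticFunction.LSeriesSummable_mul hg hcg
  refine ⟨ArithmeticFunction.LSeriesSummable_mul h1 h2, ?_⟩
  unfold four
  rw [ArithmeticFunction.LSeries_mul' h1 h2, ArithmeticFunction.LSeries_mul' hu hu,
    ArithmeticFunction.LSeries_mul' hg hcg]
  ring

end Pool.Agent.T2h95.CMO
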